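import Pool.Agent.R754.KG.F

/-!
# Bodies fibred over a base of small dimension: the class of bodies
-/

set_option autoImplicit false

namespace Pool.Agent.R754.KG

open MeasureTheory Set Filter Topology
open scoped ENNReal InnerProductSpace
open Pool.Agent.Y506.RG (EW VW Adm Star)
open Pool.Agent.Y506.PV (CcW ind Base)

/-- there are `A`, `v`, `lam` as in `DR` -/
def Rel {N : ℕ} (C0 C1 : Set (E N)) : Prop := ∃ A v lam, DR C0 C1 A v lam

/-- the class of bodies -/
inductive Cl (q B : ℕ) (p : ℝ) (d r : ℕ) : ℕ → ∀ n : ℕ, Set (E n) → Prop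
  | base (m : ℕ) (K : Set (E m)) : Base q B p K → Cl q B p d r 0 m K
  | up (h n : ℕ) (K : Set (E n)) : Cl q B p d r h n K → Cl q B p d r (h + 1) n K
  | image (h m n : ℕ) (K : Set (E m)) (A : E m →ₗ[ℝ] E n) (w : E n) : m ≤ n + r →
      Function.Surjective A → Cl q B p d r h m K → Cl q B p d r (h + 1) n ((fun x => w + A x) '' K)
  | fibred (h N j n : ℕ) (K : Set (E n)) (e : (E N × E j) ≃ₗ[ℝ] E n) : j ≤ d → IsCompact K →
      Convex ℝ K → (interior K).Nonempty →
      (∀ t, volume (sl (e ⁻¹' K) t) ≠ 0 → Cl q B p d r h N (sl (e ⁻¹' K) t)) →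
      (∀ t t', volume (sl (e ⁻¹' K) t) ≠ 0 → volume (sl (e ⁻¹' K) t') ≠ 0 →
        Rel (sl (e ⁻¹' K) t) (sl (e ⁻¹' K) t')) → Cl q B p d r (h + 1) n K

theorem min_const {P : ℕ → ℝ → Prop} (h : ∀ j, ∃ κ : ℝ, 0 < κ ∧ P j κ)
    (hm : ∀ j κ κ', κ' ≤ κ → P j κ → P j κ') (r : ℕ) : ∃ κ : ℝ, 0 < κ ∧ ∀ j, j ≤ r → P j κ := by
  induction r with
  | zero =>
    obtain ⟨κ, hκ, H⟩ := h 0
    exact ⟨κ, hκ, fun j hj => by rw [Nat.le_zero.1 hj]; exact H⟩
  | succ r ih =>
    obtain ⟨κ, hκ, H⟩ := ih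
    obtain ⟨κ1, hκ1, H1⟩ := h (r + 1)
    refine ⟨min κ κ1, lt_min hκ hκ1, fun j hj => ?_⟩
    rcases Nat.lt_or_ge j (r + 1) with hj' | hj'
    · exact hm j κ _ (min_le_left _ _) (H j (Nat.lt_succ_iff.1 hj'))
    · rw [le_antisymm hj hj']
      exact hm _ κ1 _ (min_le_right _ _) H1

theorem cc_trans {n : ℕ} {κ δ : ℝ} (K : Set (E n)) (hK : IsCompact K)
    (hint : (interior K).Nonempty) (w : E n) (h : CcW κ δ (ind K)) :
    CcW κ δ (ind ((fun x => w + x) '' K)) := by
  refine Pool.Agent.Y506.PV.cc_aff (ContinuousLinearEquiv.refl ℝ _) w 1 one_pos _ (ind K)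
    (fun x => ?_) (Pool.Agent.Y506.PV.adm_ind K hK.measurableSet hK.isBounded
      (Pool.Agent.Y506.PV.vol_pos hint)) h
  rw [one_mul]
  unfold ind
  by_cases hx : x - w ∈ K
  · have h2 : x ∈ (fun x => w + x) '' K := ⟨x - w, hx, by simp⟩
    rw [indicator_of_mem h2]
    simp [hx]
  · have h2 : x ∉ (fun x => w + x) '' K := by
      rintro ⟨y, hy, rfl⟩
      simp at hx
      exact hx hy
    rw [indicator_of_notMem h2]
    simp [hx]

theorem int_trans {n : ℕ} {K : Set (E n)} (hint : (interior K).Nonempty) (w : E n) :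
    (interior ((fun x => w + x) '' K)).Nonempty := by
  have hop : IsOpen ((fun x => w + x) '' interior K) :=
    (Homeomorph.addLeft w).isOpenMap _ isOpen_interior
  exact (hint.image _).mono (interior_maximal (image_mono interior_subset) hop)

theorem cc_zero {κ δ : ℝ} (hδ : 0 ≤ δ) (K : Set (E 0)) (hK : IsCompact K)
    (hint : (interior K).Nonempty) : CcW κ δ (ind K) := by
  intro k hk T s hs hT v hv hvb hd
  have h0 : volume K ≠ 0 := (Pool.Agent.Y506.PV.vol_pos hint).ne'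
  have hp : IsProbabilityMeasure (un K) := un_prob h0 hK.measure_lt_top.ne
  rw [VW_ind hK.measurableSet]
  have e : ∀ x : E 0, T x = T 0 := fun x => by rw [Subsingleton.elim x 0]
  simp only [e]
  simp [hδ]

/-- concentration for all bodies of the class -/
theorem cl_cc (q B : ℕ) (p : ℝ) (hp : 1 ≤ p) (d r h : ℕ) : ∀ δ : ℝ, 0 < δ → ∃ κ : ℝ, 0 < κ ∧
    ∀ (n : ℕ) (K : Set (E n)), Cl q B p d r h n K → IsCompact K ∧ Convex ℝ K ∧
      (interior K).Nonempty ∧ CcW κ δ (ind K) := by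
  induction h with
  | zero =>
    intro δ hδ
    obtain ⟨κ, hκ, H⟩ := Pool.Agent.Y506.PV.cc_base Pool.Agent.Y506.PV.ccl
      Pool.Agent.Y363.PV.phis Pool.Agent.Y506.PV.radR Pool.Agent.Y211.PV.iso q B p hp δ hδ
    refine ⟨κ, hκ, fun n K hK => ?_⟩
    cases hK with
    | base _ _ hb =>
      refine ⟨hb.compact Pool.Agent.Y363.PV.phis hp, hb.convex Pool.Agent.Y363.PV.phis hp,
        hb.2.1, ?_⟩
      rcases Nat.eq_zero_or_pos n with rfl | hn
      · exact cc_zero hδ.le K (hb.compact Pool.Agent.Y363.PV.phis hp) hb.2.1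
      · exact H n K hn hb
  | succ h ih =>
    intro δ hδ
    obtain ⟨κ0, hκ0, H0⟩ := ih δ hδ
    -- images
    obtain ⟨κ1, hκ1, H1⟩ := min_const (P := fun j κ => ∀ (n : ℕ) (K : Set (E (n + j)))
        (A : E (n + j) →ₗ[ℝ] E n), Function.Surjective A → Cl q B p d r h (n + j) K →
        CcW κ δ (ind (A '' K)))
      (fun j => by
        obtain ⟨δ0, c, hδ0, hc, H1⟩ := Pool.Agent.Y506.PV.cc_img Pool.Agent.Y941.PV.prj
          Pool.Agent.Y506.PV.denR Pool.Agent.Y388.PV.cmp Pool.Agent.Y388.PV.fac j δ hδ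
        obtain ⟨κ, hκ, H2⟩ := ih δ0 hδ0
        refine ⟨c * κ, by positivity, fun n K A hA hK => ?_⟩
        obtain ⟨h1, h2, h3, h4⟩ := H2 _ K hK
        exact H1 n κ K A hκ h1 h2 h3 hA h4)
      (fun j κ κ' hκκ hP n K A hA hK => (hP n K A hA hK).mono hκκ) r
    -- fibrations
    obtain ⟨κ2, hκ2, H2⟩ := min_const (P := fun j κ => ∀ (N n : ℕ) (e : (E N × E j) ≃ₗ[ℝ] E n)
        (K : Set (E N × E j)), Fb K → (∀ t, volume (sl K t) ≠ 0 → Cl q B p d r h N (sl K t)) →
        CcW κ δ (ind (e '' K)))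
      (fun j => by
        obtain ⟨κ, hκ, H2⟩ := ih (δ / 4) (by positivity)
        obtain ⟨κ', hκ', H3⟩ := cc_fib hδ hκ j
        exact ⟨κ', hκ', fun N n e K hF hK => H3 N n e K hF fun t ht => (H2 _ _ (hK t ht)).2.2.2⟩)
      (fun j κ κ' hκκ hP N n e K hF hK => (hP N n e K hF hK).mono hκκ) d
    refine ⟨min κ0 (min κ1 κ2), lt_min hκ0 (lt_min hκ1 hκ2), fun n K hK => ?_⟩
    cases hK with
    | up _ _ _ hK =>
      obtain ⟨h1, h2, h3, h4⟩ := H0 n K hK
      exact ⟨h1, h2, h3, h4.mono (min_le_left _ _)⟩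
    | image _ m _ K A w hm hA hK =>
      obtain ⟨h1, h2, h3, -⟩ := H0 m K hK
      have hAc : Continuous A := A.continuous_of_finiteDimensional
      have e : (fun x => w + A x) '' K = (fun x => w + x) '' (A '' K) := by
        rw [image_image]
      have hnm : n ≤ m := by
        have := LinearMap.finrank_le_finrank_of_surjective (f := A) hA
        simpa using this
      obtain ⟨j, rfl⟩ : ∃ j, m = n + j := ⟨m - n, by omega⟩
      have i1 : IsCompact (A '' K) := h1.image hAc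
      have i3 := Pool.Agent.Y506.PV.int_image h3 A hA
      rw [e]
      refine ⟨i1.image (by fun_prop), (h2.linear_image A).translate w, int_trans i3 w, ?_⟩
      exact (cc_trans _ i1 i3 w (H1 j (by omega) n K A hA hK)).mono
        ((min_le_right _ _).trans (min_le_left _ _))
    | fibred _ N j _ K e hj hc hcv hi hfib hrel =>
      refine ⟨hc, hcv, hi, ?_⟩
      let e' : (E N × E j) ≃L[ℝ] E n := e.toContinuousLinearEquiv
      have hpc : IsCompact (e ⁻¹' K) := e'.toHomeomorph.isCompact_preimage.2 hc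
      have hint : (interior (e ⁻¹' K)).Nonempty := by
        obtain ⟨x, hx⟩ := hi
        have h2 : IsOpen (e' ⁻¹' interior K) := isOpen_interior.preimage e'.continuous
        refine ⟨e'.symm x, interior_maximal (preimage_mono interior_subset) h2 ?_⟩
        change e' (e'.symm x) ∈ interior K
        rw [e'.apply_symm_apply]
        exact hx
      have hF : Fb (e ⁻¹' K) := by
        refine ⟨hcv.linear_preimage e.toLinearMap, hpc.measurableSet, hpc.isBounded, ?_, hrel⟩
        exact lt_of_lt_of_le (isOpen_interior.measure_pos volume hint)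
          (measure_mono interior_subset)
      have h3 := H2 j hj N n e (e ⁻¹' K) hF hfib
      rw [image_preimage_eq K e.surjective] at h3
      exact h3.mono ((min_le_right _ _).trans (min_le_right _ _))

/-- the functional inequality for all bodies of the class -/
theorem cl_star (q B : ℕ) (p : ℝ) (hp : 1 ≤ p) (d r h : ℕ) : ∃ c : ℝ, 0 < c ∧
    ∀ (n : ℕ) (K : Set (E n)), Cl q B p d r h n K → IsCompact K ∧ Convex ℝ K ∧
      (interior K).Nonempty ∧ Star c (ind K) := by
  obtain ⟨κ, hκ, H⟩ := cl_cc q B p hp d r h (1 / 25) (by norm_num)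
  obtain ⟨c, hc, H'⟩ := Pool.Agent.Y506.PV.stb Pool.Agent.Y211.PV.iso κ hκ
  refine ⟨c, hc, fun n K hK => ?_⟩
  obtain ⟨h1, h2, h3, h4⟩ := H n K hK
  exact ⟨h1, h2, h3, H' n K h1 h2 h3 h4⟩

end Pool.Agent.R754.KG
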