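import Mathlib

/-!
# Bodies fibred over a base of small dimension: changes of variables
-/

set_option autoImplicit false

namespace Pool.Agent.R754.KG

open MeasureTheory Set Filter Topology
open scoped ENNReal InnerProductSpace

/-- Euclidean space -/
abbrev E (n : ℕ) : Type := EuclideanSpace ℝ (Fin n)

section

variable {V : Type} [NormedAddCommGroup V] [NormedSpace ℝ V] [FiniteDimensional ℝ V]
  [MeasureSpace V] [BorelSpace V] [(volume : Measure V).IsAddHaarMeasure]

theorem lint_aff (D : V →ₗ[ℝ] V) (hD : LinearMap.det D ≠ 0) (m : V) (L : Set V)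
    (hL : MeasurableSet L) (F : V → ℝ≥0∞) :
    ∫⁻ x in (fun p => m + D p) '' L, F x =
      ENNReal.ofReal |LinearMap.det D| * ∫⁻ p in L, F (m + D p) := by
  have hinj : Function.Injective D := by
    have h1 : IsUnit (LinearMap.det D) := isUnit_iff_ne_zero.2 hD
    have h2 := (LinearMap.isUnit_iff_isUnit_det D).2 h1
    exact ((LinearMap.isUnit_iff_ker_eq_bot D).1 h2 |> LinearMap.ker_eq_bot.1)
  have h := lintegral_image_eq_lintegral_abs_det_fderiv_mul (volume : Measure V) hL
    (f := fun p => m + D p) (f' := fun _ => LinearMap.toContinuousLinearMap D)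
    (fun x _ => ((LinearMap.toContinuousLinearMap D).hasFDerivAt.const_add m).hasFDerivWithinAt)
    (fun x _ y _ hxy => hinj (add_left_cancel hxy)) F
  rw [h]
  have e : (LinearMap.toContinuousLinearMap D).det = LinearMap.det D := rfl
  simp only [e]
  rw [lintegral_const_mul' _ _ ENNReal.ofReal_ne_top]

theorem vol_aff (D : V →ₗ[ℝ] V) (hD : LinearMap.det D ≠ 0) (m : V) (L : Set V)
    (hL : MeasurableSet L) :
    volume ((fun p => m + D p) '' L) = ENNReal.ofReal |LinearMap.det D| * volume L := by
  have h := lint_aff D hD m L hL (fun _ => 1)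
  simpa using h

/-- averaging over half way points -/
theorem lint_half (F : V → ℝ≥0∞) (a : V) :
    ∫⁻ t, F ((1 / 2 : ℝ) • (a + t)) = ENNReal.ofReal (2 ^ Module.finrank ℝ V) * ∫⁻ t, F t := by
  have hdet : LinearMap.det ((1 / 2 : ℝ) • (LinearMap.id : V →ₗ[ℝ] V)) =
      (1 / 2 : ℝ) ^ Module.finrank ℝ V := by
    rw [LinearMap.det_smul, LinearMap.det_id, mul_one]
  have h := lint_aff ((1 / 2 : ℝ) • (LinearMap.id : V →ₗ[ℝ] V)) (by rw [hdet]; positivity)
    ((1 / 2 : ℝ) • a) univ MeasurableSet.univ F
  have him : (fun p : V => (1 / 2 : ℝ) • a + ((1 / 2 : ℝ) • (LinearMap.id : V →ₗ[ℝ] V)) p) '' univ =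
      univ := by
    rw [image_univ, range_eq_univ]
    intro y
    refine ⟨(2 : ℝ) • (y - (1 / 2 : ℝ) • a), ?_⟩
    simp only [LinearMap.smul_apply, LinearMap.id_apply, smul_smul]
    norm_num
  rw [him, setLIntegral_univ, setLIntegral_univ, hdet, abs_of_pos (by positivity)] at h
  have e : (fun t : V => F ((1 / 2 : ℝ) • (a + t))) =
      fun p => F ((1 / 2 : ℝ) • a + ((1 / 2 : ℝ) • (LinearMap.id : V →ₗ[ℝ] V)) p) := by
    funext t
    rw [smul_add]
    rfl
  rw [e, h, ← mul_assoc, ← ENNReal.ofReal_mul (by positivity), ← mul_pow]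
  norm_num

end

/-! ### diagonal maps -/

variable {N d : ℕ}

/-- the diagonal map with entries `r` -/
noncomputable def dg (r : Fin N → ℝ) : E N →ₗ[ℝ] E N where
  toFun x := WithLp.toLp 2 fun i => r i * x i
  map_add' x y := by
    ext i
    simp [mul_add]
  map_smul' c x := by
    ext i
    simp only [PiLp.smul_apply, smul_eq_mul, RingHom.id_apply]
    ring

@[simp] theorem dg_apply (r : Fin N → ℝ) (x : E N) (i : Fin N) : dg r x i = r i * x i := rfl

theorem dg_det (r : Fin N → ℝ) : LinearMap.det (dg r) = ∏ i, r i := by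
  classical
  have h : LinearMap.toMatrix (EuclideanSpace.basisFun (Fin N) ℝ).toBasis
      (EuclideanSpace.basisFun (Fin N) ℝ).toBasis (dg r) = Matrix.diagonal r := by
    ext i j
    rw [LinearMap.toMatrix_apply]
    simp only [OrthonormalBasis.coe_toBasis, OrthonormalBasis.coe_toBasis_repr_apply,
      EuclideanSpace.basisFun_apply, EuclideanSpace.basisFun_repr, dg_apply,
      EuclideanSpace.single_apply, Matrix.diagonal_apply]
    by_cases hij : i = j
    · simp [hij]
    · simp [hij]
  rw [← LinearMap.det_toMatrix (EuclideanSpace.basisFun (Fin N) ℝ).toBasis, h,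
    Matrix.det_diagonal]

end Pool.Agent.R754.KG
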