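import Pool.Agent.R754.KG.D
import Pool.Agent.Y506.PV.Fin

/-!
# Bodies fibred over a base of small dimension: concentration
-/

set_option autoImplicit false

namespace Pool.Agent.R754.KG

open MeasureTheory Set Filter Topology
open scoped ENNReal InnerProductSpace
open Pool.Agent.Y506.RG (EW VW)
open Pool.Agent.Y506.PV (CcW ind)

variable {N d k : ℕ}

theorem sup_ex {K : Set (E N × E d)} (h : Fb K) :
    ∃ S : ℝ, 0 < S ∧ (∀ t, Rv K t ≤ S) ∧ ∃ ts, S / 2 ≤ Rv K ts := by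
  obtain ⟨B, hB, hB'⟩ := h.sl_bdd
  have hbd : BddAbove (range fun t => Rv K t) := by
    refine ⟨B.toReal, ?_⟩
    rintro _ ⟨t, rfl⟩
    exact ENNReal.toReal_mono hB (hB' t)
  have hpos : ∃ t, 0 < Rv K t := by
    by_contra hne
    push Not at hne
    have h1 := h.vol_fub
    have h2 : ∀ t, volume (sl K t) = 0 := fun t => by
      rw [h.R_vol t, ENNReal.ofReal_eq_zero]
      exact hne t
    simp only [h2, lintegral_zero] at h1
    exact h.pos.ne' h1
  obtain ⟨t, ht⟩ := hpos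
  have hS : 0 < ⨆ t, Rv K t := lt_of_lt_of_le ht (le_ciSup hbd t)
  refine ⟨⨆ t, Rv K t, hS, fun t => le_ciSup hbd t, ?_⟩
  obtain ⟨ts, hts⟩ := exists_lt_of_lt_ciSup (show (⨆ t, Rv K t) / 2 < ⨆ t, Rv K t by linarith)
  exact ⟨ts, hts.le⟩

theorem main_prod {δ κ0 : ℝ} (hδ : 0 < δ) (hκ0 : 0 < κ0) (d : ℕ) : ∃ κ : ℝ, 0 < κ ∧
    ∀ (N k : ℕ) (K : Set (E N × E d)), Fb K →
    (∀ t, volume (sl K t) ≠ 0 → CcW κ0 (δ / 4) (ind (sl K t))) →
    ∀ (T : E N × E d →ₗ[ℝ] E k) (s : ℝ), 0 < s → (∀ θ : E k, ‖θ‖ = 1 →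
      (∫ z, ⟪T z, θ⟫_ℝ ^ 2 ∂(un K)) - (∫ z, ⟪T z, θ⟫_ℝ ∂(un K)) ^ 2 ≤ s) →
    ∀ v : E k → ℝ, ContDiff ℝ 1 v → (∀ y, |v y| ≤ 1) → (∀ y, ‖fderiv ℝ v y‖ ≤ κ / Real.sqrt s) →
    (∫ z, v (T z) ^ 2 ∂(un K)) - (∫ z, v (T z) ∂(un K)) ^ 2 ≤ δ := by
  obtain ⟨e0, he0⟩ : ∃ e0 : ℝ, e0 = min 1 (δ / (16 * 2 ^ d)) := ⟨_, rfl⟩
  have he0p : 0 < e0 := by rw [he0]; exact lt_min one_pos (by positivity)
  have he01 : e0 ≤ 1 := by rw [he0]; exact min_le_left _ _
  have he02 : e0 * (16 * 2 ^ d) ≤ δ := by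
    rw [← le_div_iff₀ (by positivity), he0]
    exact min_le_right _ _
  obtain ⟨ε, hεd⟩ : ∃ ε : ℝ, ε = e0 ^ 2 / 2 := ⟨_, rfl⟩
  have hε : 0 < ε := by rw [hεd]; positivity
  have hε2 : ε ≤ 1 / 2 := by
    rw [hεd]
    have : e0 ^ 2 ≤ 1 := pow_le_one₀ he0p.le he01
    linarith
  have hsq : Real.sqrt (2 * ε) = e0 := by
    rw [hεd, mul_div_cancel₀ _ (two_ne_zero), Real.sqrt_sq he0p.le]
  obtain ⟨C1, hC1⟩ : ∃ C1 : ℝ, C1 = 8 * Real.sqrt (1 / ε) * 2 ^ d + 2 := ⟨_, rfl⟩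
  have hC1p : 0 < C1 := by rw [hC1]; positivity
  obtain ⟨Λ, hΛ⟩ : ∃ Λ : ℝ, Λ = 1 + 2 * Real.log (1 / ε) := ⟨_, rfl⟩
  have hΛp : 0 < Λ := by
    have h1 : 0 ≤ Real.log (1 / ε) := Real.log_nonneg (by
      rw [le_div_iff₀ hε]
      linarith)
    rw [hΛ]
    linarith
  obtain ⟨κ, hκd⟩ : ∃ κ : ℝ, κ = min (κ0 / Real.sqrt C1) (Real.sqrt (δ / (16 * Λ * C1))) :=
    ⟨_, rfl⟩
  have hκ : 0 < κ := by
    rw [hκd]
    exact lt_min (by positivity) (Real.sqrt_pos.2 (by positivity))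
  have hκ1 : κ * Real.sqrt C1 ≤ κ0 := by
    rw [← le_div_iff₀ (Real.sqrt_pos.2 hC1p), hκd]
    exact min_le_left _ _
  have hκ2 : 4 * Λ * C1 * κ ^ 2 ≤ δ / 4 := by
    have h1 : κ ^ 2 ≤ δ / (16 * Λ * C1) := by
      rw [← Real.sq_sqrt (show 0 ≤ δ / (16 * Λ * C1) by positivity)]
      refine pow_le_pow_left₀ hκ.le ?_ 2
      rw [hκd]
      exact min_le_right _ _
    calc 4 * Λ * C1 * κ ^ 2 ≤ 4 * Λ * C1 * (δ / (16 * Λ * C1)) := by gcongr
      _ = δ / 4 := by
          field_simp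
          norm_num
  refine ⟨κ, hκ, fun N k K h hcc T s hs hT v hv hvb hd => ?_⟩
  obtain ⟨S, hSp, hS, ts, hts⟩ := sup_ex h
  have hbs : ε * S ≤ Rv K ts := by
    refine le_trans ?_ hts
    nlinarith
  have hK0 : volume K ≠ 0 := h.pos.ne'
  have hL0 : volume (sl K ts) ≠ 0 :=
    Fb.ne_of_R (lt_of_lt_of_le (by positivity) hts)
  have hμ : IsProbabilityMeasure (un K) := un_prob hK0 h.kfin
  have hν : IsProbabilityMeasure (un (sl K ts)) := un_prob hL0 (h.sl_fin ts)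
  have hTc : Continuous T := T.continuous_of_finiteDimensional
  have hvc : Continuous v := hv.continuous
  have hTt : ∀ t : E d, Continuous fun p : E N => T (p, t) := fun t => by
    have : Continuous fun p : E N => (p, t) := by fun_prop
    exact hTc.comp this
  obtain ⟨c, hc⟩ : ∃ c : ℝ, c = ∫ p, v (T (p, ts)) ∂(un (sl K ts)) := ⟨_, rfl⟩
  have hcb : |c| ≤ 1 := by
    rw [hc, ← Real.norm_eq_abs]
    refine (norm_integral_le_of_norm_le_const (C := 1) (Eventually.of_forall fun p => ?_)).trans ?_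
    · exact hvb _
    · simp
  have hFc : Continuous fun z : E N × E d => (v (T z) - c) ^ 2 := by fun_prop
  have hFb : ∀ z, (v (T z) - c) ^ 2 ≤ 4 := by
    intro z
    have h1 := abs_le.1 (hvb (T z))
    have h2 := abs_le.1 hcb
    nlinarith [h1.1, h1.2, h2.1, h2.2]
  have hpt : ∀ t, ∫⁻ x in sl K t, ENNReal.ofReal ((v (T (x, t)) - c) ^ 2) ≤
      ENNReal.ofReal (δ / 2) * volume (sl K t) +
      {t | Rv K t < ε * S}.indicator (fun t => 4 * volume (sl K t)) t := by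
    intro t
    by_cases ht : Rv K t < ε * S
    · rw [indicator_of_mem (show t ∈ {t | Rv K t < ε * S} from ht)]
      refine le_trans ?_ le_add_self
      calc ∫⁻ x in sl K t, ENNReal.ofReal ((v (T (x, t)) - c) ^ 2)
          ≤ ∫⁻ _ in sl K t, 4 := lintegral_mono fun x => by
            rw [show (4 : ℝ≥0∞) = ENNReal.ofReal 4 by norm_num]
            exact ENNReal.ofReal_le_ofReal (hFb _)
        _ = _ := by simp
    · rw [indicator_of_notMem (show t ∉ {t | Rv K t < ε * S} from ht), add_zero]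
      rw [not_lt] at ht
      have hne : volume (sl K t) ≠ 0 := Fb.ne_of_R (lt_of_lt_of_le (by positivity) ht)
      have hp := point h hcc T s C1 S ε κ hs hC1 hε hSp hS hκ hκ1 hT v hv hvb hd hbs ht
      rw [← hΛ, ← hc] at hp
      have hTt' := hTt t
      rw [un_lint_ofReal hne (h.sl_bd t) (by fun_prop) (fun x => sq_nonneg _), mul_comm]
      refine mul_le_mul_left (ENNReal.ofReal_le_ofReal ?_) _
      linarith
  have hmain : ∫⁻ z in K, ENNReal.ofReal ((v (T z) - c) ^ 2) ≤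
      ENNReal.ofReal (3 * δ / 4) * volume K := by
    rw [h.fub _ hFc.measurable.ennreal_ofReal]
    have hm1 : MeasurableSet {t | Rv K t < ε * S} := h.R_meas measurableSet_Iio
    calc ∫⁻ t, ∫⁻ x in sl K t, ENNReal.ofReal ((v (T (x, t)) - c) ^ 2)
        ≤ ∫⁻ t, ENNReal.ofReal (δ / 2) * volume (sl K t) +
          {t | Rv K t < ε * S}.indicator (fun t => 4 * volume (sl K t)) t := lintegral_mono hpt
      _ = ENNReal.ofReal (δ / 2) * volume K +
          4 * ∫⁻ t in {t | Rv K t < ε * S}, volume (sl K t) := by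
          rw [lintegral_add_left (h.vol_meas.const_mul _), lintegral_const_mul _ h.vol_meas,
            ← h.vol_fub, lintegral_indicator hm1, lintegral_const_mul _ h.vol_meas]
      _ ≤ ENNReal.ofReal (δ / 2) * volume K +
          4 * (ENNReal.ofReal (Real.sqrt (2 * ε) * 2 ^ d) * volume K) := by
          gcongr
          exact h.tail hSp hε hts
      _ = ENNReal.ofReal (δ / 2 + 4 * (e0 * 2 ^ d)) * volume K := by
          rw [hsq, ENNReal.ofReal_add (by positivity) (by positivity),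
            ENNReal.ofReal_mul (show (0 : ℝ) ≤ 4 by norm_num),
            show ENNReal.ofReal 4 = (4 : ℝ≥0∞) by norm_num]
          ring
      _ ≤ _ := by
          refine mul_le_mul_left (ENNReal.ofReal_le_ofReal ?_) _
          linarith
  rw [un_lint_ofReal hK0 h.bdd hFc (fun z => sq_nonneg _), mul_comm] at hmain
  have h2 := (ENNReal.mul_le_mul_iff_left hK0 h.kfin).1 hmain
  have h3 := (ENNReal.ofReal_le_ofReal_iff (by positivity)).1 h2
  rw [(var_le (un K) (fun z => v (T z)) (un_int hK0 h.bdd (by fun_prop))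
    (un_int hK0 h.bdd (by fun_prop)) c).2] at h3
  have h4 := sq_nonneg ((∫ z, v (T z) ∂(un K)) - c)
  linarith

/-! ### in other coordinates -/

theorem un_img {n : ℕ} (e : (E N × E d) ≃ₗ[ℝ] E n) {K : Set (E N × E d)} (h0 : volume K ≠ 0)
    (h1 : volume K ≠ ⊤) (f : E n → ℝ) :
    ∫ x, f x ∂(un (e '' K)) = ∫ z, f (e z) ∂(un K) := by
  let e' : (E N × E d) ≃L[ℝ] E n := e.toContinuousLinearEquiv
  have hme : MeasurableEmbedding e' := e'.toHomeomorph.measurableEmbedding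
  have hv0 : (volume : Measure (E N × E d)).IsAddHaarMeasure :=
    inferInstanceAs (Measure.prod (volume : Measure (E N)) (volume : Measure (E d))).IsAddHaarMeasure
  have hh : (Measure.map e' (volume : Measure (E N × E d))).IsAddHaarMeasure :=
    e'.isAddHaarMeasure_map volume
  obtain ⟨c, hc⟩ : ∃ c : NNReal, Measure.map e' (volume : Measure (E N × E d)) =
      c • (volume : Measure (E n)) := ⟨_, Measure.isAddLeftInvariant_eq_smul _ _⟩
  have hKe : e' ⁻¹' (e '' K) = K := preimage_image_eq K e.injective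
  have hv : volume K = c * volume (e '' K) := by
    have h2 : (Measure.map e' (volume : Measure (E N × E d))) (e '' K) = volume K := by
      rw [hme.map_apply, hKe]
    rw [← h2, hc]
    rfl
  have hc0 : (c : ℝ≥0∞) ≠ 0 := by
    intro h
    rw [h, zero_mul] at hv
    exact h0 hv
  have hr : Measure.map e' (volume.restrict K) = c • (volume.restrict (e '' K)) := by
    rw [← hKe, ← hme.restrict_map, hc, Measure.restrict_smul, hKe]
  have hun : un (e '' K) = Measure.map e' (un K) := by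
    unfold un
    rw [Measure.map_smul, hr, hv]
    have h3 : (c • (volume.restrict (e '' K)) : Measure (E n)) =
        (c : ℝ≥0∞) • volume.restrict (e '' K) := rfl
    rw [h3, smul_smul, ENNReal.mul_inv (Or.inl hc0) (Or.inl ENNReal.coe_ne_top)]
    congr 1
    rw [mul_comm (c : ℝ≥0∞)⁻¹, mul_assoc, ENNReal.inv_mul_cancel hc0 ENNReal.coe_ne_top, mul_one]
  rw [hun, hme.integral_map]
  rfl

/-- concentration for fibred bodies -/
theorem cc_fib {δ κ0 : ℝ} (hδ : 0 < δ) (hκ0 : 0 < κ0) (d : ℕ) : ∃ κ : ℝ, 0 < κ ∧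
    ∀ (N n : ℕ) (e : (E N × E d) ≃ₗ[ℝ] E n) (K : Set (E N × E d)), Fb K →
    (∀ t, volume (sl K t) ≠ 0 → CcW κ0 (δ / 4) (ind (sl K t))) → CcW κ δ (ind (e '' K)) := by
  obtain ⟨κ, hκ, H⟩ := main_prod hδ hκ0 d
  refine ⟨κ, hκ, fun N n e K h hcc k hk T s hs hT v hv hvb hd => ?_⟩
  have hme : MeasurableSet (e '' K) := by
    let e' : (E N × E d) ≃L[ℝ] E n := e.toContinuousLinearEquiv
    exact e'.toHomeomorph.measurableEmbedding.measurableSet_image.2 h.meas
  have key := H N k K h hcc (T ∘ₗ e.toLinearMap) s hs (fun θ hθ => by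
    have h1 := hT θ hθ
    rw [VW_ind hme, un_img e h.pos.ne' h.kfin, un_img e h.pos.ne' h.kfin] at h1
    exact h1) v hv hvb hd
  rw [VW_ind hme, un_img e h.pos.ne' h.kfin, un_img e h.pos.ne' h.kfin]
  exact key

end Pool.Agent.R754.KG
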