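import Pool.Agent.R754.KG.G

/-!
# Bodies fibred over a base of small dimension: homothetic bodies, boxes, ellipsoids
-/

set_option autoImplicit false

namespace Pool.Agent.R754.KG

open MeasureTheory Set Filter Topology
open scoped ENNReal InnerProductSpace
open Pool.Agent.Y506.RG (EW VW Adm Star)
open Pool.Agent.Y506.PV (CcW ind Base)

variable {N : ℕ}

/-! ### homothetic bodies -/

theorem rel_hom {C0 : Set (E N)} (hC : IsCompact C0) (hint : (interior C0).Nonempty) (v : E N)
    (l : ℝ) (hl : 0 < l) : Rel C0 ((fun x => v + l • x) '' C0) := by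
  obtain ⟨A, hA⟩ := Pool.Agent.Y211.PV.iso N (ind C0) (Pool.Agent.Y506.PV.adm_ind C0
    hC.measurableSet hC.isBounded (Pool.Agent.Y506.PV.vol_pos hint))
  have hvol := (Pool.Agent.Y506.PV.vol_pos hint).ne'
  have hν : IsProbabilityMeasure (un C0) := un_prob hvol hC.measure_lt_top.ne
  refine ⟨A.toLinearEquiv, v, fun _ => l, fun _ => hl, ?_, ?_⟩
  · refine image_congr fun x _ => ?_
    congr 1
    rw [cj_apply]
    have e1 : dg (fun _ => l) (A.toLinearEquiv x) = l • (A.toLinearEquiv x) := by
      ext i
      simp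
    rw [e1, map_smul, LinearEquiv.symm_apply_apply]
  · intro i j hij
    have hAc : Continuous A := A.continuous
    have key := fun θ : E N => (VW_ind hC.measurableSet (fun x => ⟪A x, θ⟫_ℝ)).symm.trans (hA θ)
    have c1 : ∀ (x : E N) (i : Fin N), ⟪A x, EuclideanSpace.single i (1 : ℝ)⟫_ℝ = A x i := by
      intro x i
      rw [EuclideanSpace.inner_single_right]
      simp
    have k1 := key (EuclideanSpace.single i 1)
    have k2 := key (EuclideanSpace.single j 1)
    have k3 := key (EuclideanSpace.single i 1 + EuclideanSpace.single j 1)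
    simp only [inner_add_right, c1] at k1 k2 k3
    have n3 : ‖(EuclideanSpace.single i (1 : ℝ) + EuclideanSpace.single j (1 : ℝ) : E N)‖ ^ 2 =
        2 := by
      rw [norm_add_sq_real, EuclideanSpace.inner_single_right]
      simp [hij.symm]
      norm_num
    have n1 : ∀ i : Fin N, ‖(EuclideanSpace.single i (1 : ℝ) : E N)‖ ^ 2 = 1 := by
      intro i
      simp
    rw [n1] at k1 k2
    rw [n3] at k3
    have i1 : Integrable (fun x : E N => A x i) (un C0) := un_int hvol hC.isBounded (by fun_prop)
    have i2 : Integrable (fun x : E N => A x j) (un C0) := un_int hvol hC.isBounded (by fun_prop)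
    have i3 : Integrable (fun x : E N => A x i ^ 2) (un C0) :=
      un_int hvol hC.isBounded (by fun_prop)
    have i4 : Integrable (fun x : E N => A x j ^ 2) (un C0) :=
      un_int hvol hC.isBounded (by fun_prop)
    have i5 : Integrable (fun x : E N => A x i * A x j) (un C0) :=
      un_int hvol hC.isBounded (by fun_prop)
    have e2 : (fun x : E N => (A x i + A x j) ^ 2) =
        fun x => A x i ^ 2 + (A x j ^ 2 + 2 * (A x i * A x j)) := by
      funext x
      ring
    have i6 : Integrable (fun x : E N => A x j ^ 2 + 2 * (A x i * A x j)) (un C0) :=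
      i4.add (i5.const_mul 2)
    rw [e2, integral_add i3 i6, integral_add i4 (i5.const_mul 2), integral_const_mul,
      integral_add i1 i2] at k3
    change ∫ x, A x i * A x j ∂(un C0) = (∫ x, A x i ∂(un C0)) * ∫ x, A x j ∂(un C0)
    nlinarith

/-! ### sets with reflections -/

theorem int_refl {C0 : Set (E N)} (hm : MeasurableSet C0) (D : E N →ₗ[ℝ] E N)
    (hD : |LinearMap.det D| = 1) (m : E N) (himg : (fun p => m + D p) '' C0 = C0)
    (f : E N → ℝ) : ∫ x, f x ∂(un C0) = ∫ x, f (m + D x) ∂(un C0) := by
  have hD0 : LinearMap.det D ≠ 0 := by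
    intro h
    rw [h] at hD
    simp at hD
  have hinj : Function.Injective D := by
    have h1 : IsUnit (LinearMap.det D) := isUnit_iff_ne_zero.2 hD0
    have h2 := (LinearMap.isUnit_iff_isUnit_det D).2 h1
    exact ((LinearMap.isUnit_iff_ker_eq_bot D).1 h2 |> LinearMap.ker_eq_bot.1)
  have h := integral_image_eq_integral_abs_det_fderiv_smul (volume : Measure (E N)) hm
    (f := fun p => m + D p) (f' := fun _ => LinearMap.toContinuousLinearMap D)
    (fun x _ => ((LinearMap.toContinuousLinearMap D).hasFDerivAt.const_add m).hasFDerivWithinAt)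
    (fun x _ y _ hxy => hinj (add_left_cancel hxy)) f
  rw [himg] at h
  have e : (LinearMap.toContinuousLinearMap D).det = LinearMap.det D := rfl
  simp only [e, hD, one_smul] at h
  unfold un
  rw [integral_smul_measure, integral_smul_measure, h]

/-- sets which are symmetric with respect to reflections in the coordinates `A x` -/
theorem unc_refl {C0 : Set (E N)} (hm : MeasurableSet C0) (hb : Bornology.IsBounded C0)
    (h0 : volume C0 ≠ 0) (A : E N ≃ₗ[ℝ] E N) (w : E N)
    (hr : ∀ i, ∀ x ∈ C0, A.symm (WithLp.toLp 2 fun j => if j = i then 2 * w i - A x i else A x j) ∈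
      C0) : ∀ i j, i ≠ j → ∫ x, A x i * A x j ∂(un C0) =
    (∫ x, A x i ∂(un C0)) * ∫ x, A x j ∂(un C0) := by
  classical
  have hν : IsProbabilityMeasure (un C0) := un_prob h0 hb.measure_lt_top.ne
  have hAc : Continuous A := A.toLinearMap.continuous_of_finiteDimensional
  -- the reflections
  obtain ⟨D, hDd⟩ : ∃ D : Fin N → (E N →ₗ[ℝ] E N), D = fun i =>
      cj A (fun j => if j = i then -1 else 1) := ⟨_, rfl⟩
  obtain ⟨m, hmd⟩ : ∃ m : Fin N → E N, m = fun i =>
      A.symm (EuclideanSpace.single i (2 * w i)) := ⟨_, rfl⟩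
  have hAD : ∀ i x, A (m i + D i x) = WithLp.toLp 2 fun j =>
      if j = i then 2 * w i - A x i else A x j := by
    intro i x
    rw [hDd, hmd]
    simp only [map_add, LinearEquiv.apply_symm_apply, cj_apply]
    ext j
    simp only [PiLp.add_apply, PiLp.single_apply, dg_apply]
    by_cases hj : j = i
    · subst hj
      simp
      ring
    · simp [hj]
  have hr' : ∀ i x, m i + D i x = A.symm (WithLp.toLp 2 fun j =>
      if j = i then 2 * w i - A x i else A x j) := by
    intro i x
    rw [← hAD i x, LinearEquiv.symm_apply_apply]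
  have hinv : ∀ i x, m i + D i (m i + D i x) = x := by
    intro i x
    apply A.injective
    rw [hAD i (m i + D i x)]
    ext j
    simp only [hAD i x]
    by_cases hj : j = i
    · subst hj
      simp
    · simp [hj]
  have hdet : ∀ i, |LinearMap.det (D i)| = 1 := by
    intro i
    rw [hDd]
    simp only [cj_det]
    rw [Finset.prod_ite_eq' Finset.univ i (fun _ => (-1 : ℝ))]
    simp
  have himg : ∀ i, (fun p => m i + D i p) '' C0 = C0 := by
    intro i
    ext x
    constructor
    · rintro ⟨y, hy, rfl⟩
      simp only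
      rw [hr' i y]
      exact hr i y hy
    · intro hx
      refine ⟨m i + D i x, ?_, hinv i x⟩
      rw [hr' i x]
      exact hr i x hx
  have hmean : ∀ i, ∫ x, A x i ∂(un C0) = w i := by
    intro i
    have h1 := int_refl hm (D i) (hdet i) (m i) (himg i) fun x => A x i
    have h2 : ∀ x, A (m i + D i x) i = 2 * w i - A x i := by
      intro x
      rw [hAD i x]
      simp
    simp only [h2] at h1
    have i1 : Integrable (fun x : E N => A x i) (un C0) := un_int h0 hb (by fun_prop)
    rw [integral_sub (integrable_const _) i1] at h1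
    simp at h1
    linarith
  intro i j hij
  rw [hmean i, hmean j]
  have h1 := int_refl hm (D i) (hdet i) (m i) (himg i) fun x => A x i * A x j
  have h2 : ∀ x, A (m i + D i x) i * A (m i + D i x) j =
      2 * w i * A x j - A x i * A x j := by
    intro x
    rw [hAD i x]
    simp [hij.symm]
    ring
  simp only [h2] at h1
  have i1 : Integrable (fun x : E N => A x i * A x j) (un C0) := un_int h0 hb (by fun_prop)
  have i2 : Integrable (fun x : E N => A x j) (un C0) := un_int h0 hb (by fun_prop)
  rw [integral_sub (i2.const_mul _) i1, integral_const_mul, hmean j] at h1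
  linarith

/-! ### boxes -/

/-- box -/
def bx (a b : Fin N → ℝ) : Set (E N) := {x | ∀ i, a i ≤ x i ∧ x i ≤ b i}

theorem bx_closed (a b : Fin N → ℝ) : IsClosed (bx a b) := by
  have : bx a b = ⋂ i, {x : E N | a i ≤ x i ∧ x i ≤ b i} := by
    ext x
    simp [bx]
  rw [this]
  refine isClosed_iInter fun i => ?_
  have hc : Continuous fun x : E N => x i := by fun_prop
  exact (isClosed_le continuous_const hc).inter (isClosed_le hc continuous_const)

theorem bx_bdd (a b : Fin N → ℝ) : Bornology.IsBounded (bx a b) := by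
  refine (Metric.isBounded_iff_subset_closedBall 0).2 ⟨∑ i, (|a i| + |b i|), fun x hx => ?_⟩
  rw [mem_closedBall_zero_iff, EuclideanSpace.norm_eq]
  refine Real.sqrt_le_iff.2 ⟨by positivity, ?_⟩
  have h1 : ∀ i, ‖x i‖ ^ 2 ≤ (|a i| + |b i|) ^ 2 := by
    intro i
    have h2 := hx i
    have h3 : ‖x i‖ ≤ |a i| + |b i| := by
      rw [Real.norm_eq_abs, abs_le]
      have := neg_abs_le (a i)
      have := le_abs_self (b i)
      have := abs_nonneg (a i)
      have := abs_nonneg (b i)
      constructor <;> linarith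
    gcongr
  calc ∑ i, ‖x i‖ ^ 2 ≤ ∑ i, (|a i| + |b i|) ^ 2 := Finset.sum_le_sum fun i _ => h1 i
    _ ≤ _ := Finset.sum_sq_le_sq_sum_of_nonneg fun i _ => by positivity

theorem rel_bx {a b a' b' : Fin N → ℝ} (h : ∀ i, a i < b i) (h' : ∀ i, a' i < b' i)
    (h0 : volume (bx a b) ≠ 0) : Rel (bx a b) (bx a' b') := by
  obtain ⟨lam, hlam⟩ : ∃ lam : Fin N → ℝ, lam = fun i => (b' i - a' i) / (b i - a i) := ⟨_, rfl⟩
  have hpos : ∀ i, 0 < lam i := fun i => by
    rw [hlam]
    exact div_pos (sub_pos.2 (h' i)) (sub_pos.2 (h i))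
  refine ⟨LinearEquiv.refl ℝ _, WithLp.toLp 2 fun i => a' i - lam i * a i, lam, hpos, ?_, ?_⟩
  · ext y
    constructor
    · intro hy
      refine ⟨WithLp.toLp 2 fun i => a i + (y i - a' i) / lam i, fun i => ?_, ?_⟩
      · have h1 := hy i
        have h2 := hpos i
        have h3 := h i
        have h4 := h' i
        simp only
        constructor
        · have : 0 ≤ (y i - a' i) / lam i := div_nonneg (by linarith) h2.le
          linarith
        · have h5 : (y i - a' i) / lam i ≤ b i - a i := by
            rw [div_le_iff₀ h2, hlam]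
            simp only
            rw [mul_div_cancel₀ _ (sub_pos.2 h3).ne']
            linarith
          linarith
      · ext i
        have h2 := (hpos i).ne'
        simp only [cj_apply, LinearEquiv.refl_apply, LinearEquiv.refl_symm, PiLp.add_apply,
          dg_apply]
        field_simp
        ring
    · rintro ⟨x, hx, rfl⟩ i
      have h1 := hx i
      have h2 := hpos i
      have h3 := h i
      have h4 := h' i
      simp only [cj_apply, LinearEquiv.refl_apply, LinearEquiv.refl_symm, PiLp.add_apply,
        dg_apply]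
      have h5 : lam i * (b i - a i) = b' i - a' i := by
        rw [hlam]
        simp only
        rw [div_mul_cancel₀ _ (sub_pos.2 h3).ne']
      have h6 : 0 ≤ lam i * (x i - a i) := mul_nonneg h2.le (by linarith)
      have h7 : lam i * (x i - a i) ≤ lam i * (b i - a i) :=
        mul_le_mul_of_nonneg_left (by linarith) h2.le
      constructor
      · nlinarith
      · nlinarith
  · refine unc_refl (bx_closed a b).measurableSet (bx_bdd a b) h0 (LinearEquiv.refl ℝ _)
      (WithLp.toLp 2 fun i => (a i + b i) / 2) fun i x hx j => ?_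
    have h1 := hx j
    simp only [LinearEquiv.refl_apply, LinearEquiv.refl_symm]
    by_cases hj : j = i
    · subst hj
      simp only [if_true]
      constructor <;> linarith
    · simp only [hj, if_false]
      exact h1

/-! ### ellipsoids -/

/-- any linear bijection maps the ball to the image of the ball under a positive definite map -/
theorem svd (P : E N ≃ₗ[ℝ] E N) : ∃ (u : OrthonormalBasis (Fin N) ℝ (E N)) (lam : Fin N → ℝ),
    (∀ i, 0 < lam i) ∧ P '' Metric.closedBall 0 1 =
      (fun x => u.repr.symm (dg lam (u.repr x))) '' Metric.closedBall (0 : E N) 1 := by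
  obtain ⟨Q, hQ⟩ : ∃ Q : E N →ₗ[ℝ] E N, Q = P.symm.toLinearMap := ⟨_, rfl⟩
  obtain ⟨S, hS⟩ : ∃ S : E N →ₗ[ℝ] E N, S = (LinearMap.adjoint Q) ∘ₗ Q := ⟨_, rfl⟩
  have hSin : ∀ x y, ⟪S x, y⟫_ℝ = ⟪Q x, Q y⟫_ℝ := by
    intro x y
    rw [hS, LinearMap.comp_apply, LinearMap.adjoint_inner_left]
  have hsym : S.IsSymmetric := by
    intro x y
    rw [hSin, real_inner_comm, ← hSin, real_inner_comm]
  have hn : Module.finrank ℝ (E N) = N := by simp
  obtain ⟨u, hu⟩ : ∃ u : OrthonormalBasis (Fin N) ℝ (E N), u = hsym.eigenvectorBasis hn :=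
    ⟨_, rfl⟩
  obtain ⟨σ, hσ⟩ : ∃ σ : Fin N → ℝ, ∀ i, S (u i) = σ i • u i := by
    refine ⟨hsym.eigenvalues hn, fun i => ?_⟩
    rw [hu]
    exact hsym.apply_eigenvectorBasis hn i
  have hσ2 : ∀ i, σ i = ‖Q (u i)‖ ^ 2 := by
    intro i
    rw [← real_inner_self_eq_norm_sq, ← hSin, hσ i, real_inner_smul_left,
      real_inner_self_eq_norm_sq, u.orthonormal.1 i]
    simp
  have hσp : ∀ i, 0 < σ i := by
    intro i
    rw [hσ2 i]
    have h1 : Q (u i) ≠ 0 := by
      intro h
      rw [hQ] at h
      have h2 : u i = 0 := P.symm.injective (by rw [map_zero]; exact h)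
      have h3 := u.orthonormal.1 i
      rw [h2, norm_zero] at h3
      exact zero_ne_one h3
    have := norm_pos_iff.2 h1
    positivity
  obtain ⟨lam, hlam⟩ : ∃ lam : Fin N → ℝ, lam = fun i => 1 / Real.sqrt (σ i) := ⟨_, rfl⟩
  have hlp : ∀ i, 0 < lam i := fun i => by
    rw [hlam]
    exact one_div_pos.2 (Real.sqrt_pos.2 (hσp i))
  have hls : ∀ i, lam i ^ 2 * σ i = 1 := fun i => by
    rw [hlam]
    simp only
    rw [div_pow, Real.sq_sqrt (hσp i).le, one_pow, one_div_mul_cancel (hσp i).ne']
  obtain ⟨G, hG⟩ : ∃ G : E N →ₗ[ℝ] E N, G = u.repr.symm.toLinearEquiv.toLinearMap ∘ₗ dg lam ∘ₗ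
      u.repr.toLinearEquiv.toLinearMap := ⟨_, rfl⟩
  have hGx : ∀ x, G x = u.repr.symm (dg lam (u.repr x)) := fun x => by rw [hG]; rfl
  -- `Q G` is an isometry
  have hiso : ∀ x, ‖Q (G x)‖ = ‖x‖ := by
    intro x
    have h1 : G x = ∑ i, (lam i * u.repr x i) • u i := by
      rw [hGx, ← u.sum_repr (u.repr.symm (dg lam (u.repr x)))]
      simp
    have h2 : S (G x) = ∑ i, (lam i * u.repr x i * σ i) • u i := by
      rw [h1, map_sum]
      refine Finset.sum_congr rfl fun i _ => ?_
      rw [map_smul, hσ i, smul_smul]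
    have h3 : ‖Q (G x)‖ ^ 2 = ‖x‖ ^ 2 := by
      rw [← real_inner_self_eq_norm_sq, ← hSin, h2]
      conv_lhs => rw [h1]
      rw [sum_inner]
      have h4 : ∀ i, ⟪(lam i * u.repr x i * σ i) • u i, ∑ j, (lam j * u.repr x j) • u j⟫_ℝ =
          (u.repr x i) ^ 2 := by
        intro i
        rw [real_inner_smul_left, inner_sum, Finset.sum_eq_single i]
        · rw [real_inner_smul_right, real_inner_self_eq_norm_sq, u.orthonormal.1 i]
          have := hls i
          calc lam i * u.repr x i * σ i * (lam i * u.repr x i * 1 ^ 2) =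
              (lam i ^ 2 * σ i) * (u.repr x i) ^ 2 := by ring
            _ = _ := by rw [this, one_mul]
        · intro j _ hj
          rw [real_inner_smul_right, u.orthonormal.2 hj.symm, mul_zero]
        · intro h
          exact absurd (Finset.mem_univ i) h
      rw [Finset.sum_congr rfl fun i _ => h4 i, ← u.repr.norm_map x,
        EuclideanSpace.real_norm_sq_eq]
    exact (pow_left_inj₀ (norm_nonneg _) (norm_nonneg _) two_ne_zero).1 h3
  have hPQ : ∀ x, P (Q x) = x := fun x => by rw [hQ]; simp
  have hQP : ∀ x, Q (P x) = x := fun x => by rw [hQ]; simp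
  have hinj : Function.Injective (Q ∘ₗ G) := by
    rw [injective_iff_map_eq_zero]
    intro x hx
    have h1 := hiso x
    rw [LinearMap.comp_apply] at hx
    rw [hx, norm_zero] at h1
    exact norm_eq_zero.1 h1.symm
  have hsurj : Function.Surjective (Q ∘ₗ G) := LinearMap.injective_iff_surjective.1 hinj
  refine ⟨u, lam, hlp, ?_⟩
  ext y
  constructor
  · rintro ⟨x, hx, rfl⟩
    obtain ⟨z, hz⟩ := hsurj x
    rw [LinearMap.comp_apply] at hz
    refine ⟨z, ?_, ?_⟩
    · rw [mem_closedBall_zero_iff] at hx ⊢
      rw [← hiso z, hz]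
      exact hx
    · simp only
      rw [← hGx, ← hz, hPQ]
  · rintro ⟨z, hz, rfl⟩
    refine ⟨Q (G z), ?_, ?_⟩
    · rw [mem_closedBall_zero_iff] at hz ⊢
      rw [hiso z]
      exact hz
    · rw [hPQ, hGx]

theorem rel_ell (m0 m1 : E N) (M0 M1 : E N ≃ₗ[ℝ] E N) :
    Rel ((fun x => m0 + M0 x) '' Metric.closedBall 0 1)
      ((fun x => m1 + M1 x) '' Metric.closedBall 0 1) := by
  obtain ⟨u, lam, hlp, himg⟩ := svd (M1.trans M0.symm)
  obtain ⟨A, hA⟩ : ∃ A : E N ≃ₗ[ℝ] E N, A = M0.symm.trans u.repr.toLinearEquiv := ⟨_, rfl⟩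
  have hAx : ∀ x, A x = u.repr (M0.symm x) := fun x => by rw [hA]; rfl
  have hAs : ∀ x, A.symm x = M0 (u.repr.symm x) := fun x => by rw [hA]; rfl
  refine ⟨A, m1 - cj A lam m0, lam, hlp, ?_, ?_⟩
  · rw [image_image]
    have e1 : ∀ x, (m1 - cj A lam m0) + cj A lam (m0 + M0 x) =
        m1 + M0 (u.repr.symm (dg lam (u.repr x))) := by
      intro x
      rw [map_add]
      have : cj A lam (M0 x) = M0 (u.repr.symm (dg lam (u.repr x))) := by
        rw [cj_apply, hAs, hAx, LinearEquiv.symm_apply_apply]
      rw [this]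
      abel
    simp only [e1]
    have e2 : (fun x => m1 + M1 x) '' Metric.closedBall (0 : E N) 1 =
        (fun x => m1 + M0 x) '' ((M1.trans M0.symm) '' Metric.closedBall (0 : E N) 1) := by
      rw [image_image]
      refine image_congr fun x _ => ?_
      simp
    rw [e2, himg, image_image]
  · have hc : IsCompact ((fun x => m0 + M0 x) '' Metric.closedBall (0 : E N) 1) := by
      have hM : Continuous M0 := M0.toLinearMap.continuous_of_finiteDimensional
      exact (isCompact_closedBall _ _).image (by fun_prop)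
    have hint : (interior ((fun x => m0 + M0 x) '' Metric.closedBall (0 : E N) 1)).Nonempty := by
      have h1 : (interior (Metric.closedBall (0 : E N) 1)).Nonempty :=
        ⟨0, by
          rw [interior_closedBall _ one_ne_zero]
          simp⟩
      have h2 := Pool.Agent.Y506.PV.int_image h1 M0.toLinearMap M0.surjective
      have h3 := int_trans h2 m0
      rw [image_image] at h3
      exact h3
    refine unc_refl hc.measurableSet hc.isBounded (Pool.Agent.Y506.PV.vol_pos hint).ne' A (A m0)
      fun i x hx => ?_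
    obtain ⟨y, hy, rfl⟩ := hx
    refine ⟨u.repr.symm (WithLp.toLp 2 fun j => if j = i then -(u.repr y i) else u.repr y j),
      ?_, ?_⟩
    · rw [mem_closedBall_zero_iff] at hy ⊢
      rw [u.repr.symm.norm_map]
      rw [← u.repr.norm_map y] at hy
      refine le_trans (le_of_eq ?_) hy
      rw [EuclideanSpace.norm_eq, EuclideanSpace.norm_eq]
      congr 1
      refine Finset.sum_congr rfl fun j _ => ?_
      simp only
      by_cases hj : j = i
      · subst hj
        simp
      · simp [hj]
    · simp only
      apply A.injective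
      rw [LinearEquiv.apply_symm_apply, map_add, map_add]
      have e3 : ∀ z, A (M0 z) = u.repr z := fun z => by rw [hAx, LinearEquiv.symm_apply_apply]
      rw [e3, e3, LinearIsometryEquiv.apply_symm_apply]
      ext j
      simp only [PiLp.add_apply]
      by_cases hj : j = i
      · subst hj
        simp
        ring
      · simp [hj]

end Pool.Agent.R754.KG
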